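import Mathlib
import Pool.Agent.Y713.CR.Last

open Set MeasureTheory
open scoped ContDiff InnerProductSpace ENNReal

namespace Pool.Agent.Results.MP_396e7f_gt.BlockingSurfaces

open Pool.Agent.Helper28.Cr Pool.Agent.Y713.CR

/-- Let `r > 0`. Call a closed embedded surface `M` of class `C¹` in `T^r S^2` blocking if it meets
all the orbits of all the one-parameter groups of rotations.

* The surfaces `Σ_{r P^{a,b}}` are blocking.
* They are the surfaces of least area among all the blocking surfaces, and they are the only ones.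
* A closed embedded surface of class `C¹` is blocking as soon as a single orbit of a single
one-parameter group of rotations meets it in exactly one point, and transversally.
* If `V` is a `C¹` tangent field of length `r` on some nonempty open subset `U ∩ S²` of the sphere and
the part over `U` of the closed embedded surface `M` of class `C¹` is the graph of `V`, then `M` is
blocking, so `M` has at least the area of `Σ_{r P^{a,b}}`; in the case of equality
`M = Σ_{r P^{a',b'}}` and `V = r P^{a',b'}` on `U`.
* The part over `U` of the closure of the graph of `V` is the graph of `V`, and the smooth fields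
without boundary on dense open sets, with the closures of their graphs, are a special case. -/
theorem result (r : ℝ) (hr : 0 < r) :
    (∀ a b : E3, Orth a b →
      IsClosed (SigP r a b) ∧ IsSurf1 r (SigP r a b) ∧ Blocks r (SigP r a b)) ∧
    (∀ M : Set (E3 × E3), IsClosed M → IsSurf1 r M → Blocks r M → ∀ a b : E3, Orth a b →
      area (SigP r a b) ≠ ⊤ ∧ area (SigP r a b) ≤ area M ∧
      (area M = area (SigP r a b) ↔ ∃ a' b' : E3, Orth a' b' ∧ M = SigP r a' b')) ∧
    (∀ M : Set (E3 × E3), IsClosed M → IsSurf1 r M → ∀ (w : E3) (p : E3 × E3),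
      CutOnce r M w p → Blocks r M) ∧
    (∀ (U : Set E3) (V : E3 → E3), IsField1 r U V → ∀ M : Set (E3 × E3), IsClosed M →
      IsSurf1 r M → GraphOver U V M → Blocks r M ∧ ∀ a b : E3, Orth a b →
        area (SigP r a b) ≤ area M ∧ (area M = area (SigP r a b) →
          ∃ a' b' : E3, Orth a' b' ∧ M = SigP r a' b' ∧
            ∀ x ∈ U, ‖x‖ = 1 → x ≠ -a' ∧ V x = r • Pf a' b' x)) ∧
    (∀ (U : Set E3) (V : E3 → E3), IsField1 r U V → GraphOver U V (Sig U V)) ∧
    (∀ (U : Set E3) (V : E3 → E3), IsField r U V → IsSurf r (Sig U V) →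
      IsField1 r U V ∧ IsClosed (Sig U V) ∧ IsSurf1 r (Sig U V)) := by
  have hF : ∀ (U : Set E3) (V : E3 → E3), IsField1 r U V → ∀ M : Set (E3 × E3), IsClosed M →
      IsSurf1 r M → GraphOver U V M → Blocks r M := by
    intro U V hV M hc hS hG
    obtain ⟨x, hxU, hx⟩ := hV.2.1
    rw [mem_sphere_zero_iff_norm] at hx
    exact blocks_of_cut hr hc hS (cut_of_graph hr hV hS hG hxU hx)
  refine ⟨fun a b h => ⟨closed_SigP r a b, surf_SigP hr h, blocks_SigP hr h⟩,
    fun M hc hS hB a b h => main_area hr hc hS hB h,
    fun M hc hS w p h => blocks_of_cut hr hc hS h, ?_, fun U V hV => graph_sig hV,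
    fun U V hV hS => ⟨field1_of_field hV, isClosed_closure, surf1_of_surf hS⟩⟩
  intro U V hV M hc hS hG
  have hB := hF U V hV M hc hS hG
  refine ⟨hB, fun a b hab => ?_⟩
  obtain ⟨-, h1, h2⟩ := main_area hr hc hS hB hab
  refine ⟨h1, fun h => ?_⟩
  obtain ⟨a', b', h', rfl⟩ := h2.1 h
  exact ⟨a', b', h', rfl, fun x hxU hx => pf_of_graph hr h' hG hxU hx⟩

end Pool.Agent.Results.MP_396e7f_gt.BlockingSurfaces
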